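import Pool.Agent.LocS.Lang
import Pool.Agent.LocS.Restr
import Pool.Agent.LocE.Addr

set_option autoImplicit false

/-!
# One scale of the language as a disjunction of copies of the polynomial function
-/

namespace Pool.Agent.LocS

open Finset Pool.Agent.NegLim Pool.Agent.NegLim.Lang Pool.Agent.NegLim.NPL Pool.Agent.NTR
  Pool.Agent.LocE

/-- The number of an address variable: selector `k`, digit `t`, bit `c`. -/
def addrS {κ l : ℕ} (s : Fin κ × Fin l × Bool) : ℕ :=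
  ((s.1 : ℕ) * l + s.2.1) * 2 + (if s.2.2 then 1 else 0)

lemma addrS_lt {κ l : ℕ} (s : Fin κ × Fin l × Bool) : addrS s < κ * l * 2 := by
  obtain ⟨k, t, c⟩ := s
  unfold addrS
  have e4 : (k : ℕ) * l + t + 1 ≤ κ * l := by
    have h1 : ((k : ℕ) + 1) * l ≤ κ * l := Nat.mul_le_mul_right _ k.isLt
    have h2 : ((k : ℕ) + 1) * l = k * l + l := by ring
    have := t.isLt
    omega
  have e6 : (if c = true then 1 else 0) ≤ 1 := by cases c <;> simp
  show ((k : ℕ) * l + t) * 2 + (if c = true then 1 else 0) < κ * l * 2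
  generalize (k : ℕ) * l = z at e4 ⊢
  generalize (if c = true then 1 else 0) = z' at e6 ⊢
  omega

lemma addrS_injective {κ l : ℕ} : Function.Injective (addrS : Fin κ × Fin l × Bool → ℕ) := by
  rintro ⟨k, t, c⟩ ⟨k', t', c'⟩ heq
  unfold addrS at heq
  obtain ⟨h1, h2⟩ := divmod_inj (by split_ifs <;> omega) (by split_ifs <;> omega) heq
  obtain ⟨h3, h4⟩ := divmod_inj t.isLt t'.isLt h1
  have hc : c = c' := by
    cases c <;> cases c' <;> simp at h2 ⊢
  have hk : k = k' := Fin.ext h3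
  have ht : t = t' := Fin.ext h4
  subst hk ht hc
  rfl

/-- The address variable among the `n` variables. -/
def AS {κ l n : ℕ} (hn : κ * l * 2 ≤ n) (s : Fin κ × Fin l × Bool) : Fin n :=
  ⟨addrS s, (addrS_lt s).trans_le hn⟩

lemma AS_injective {κ l n : ℕ} (hn : κ * l * 2 ≤ n) :
    Function.Injective (AS hn : Fin κ × Fin l × Bool → Fin n) := by
  intro s s' h
  exact addrS_injective (congrArg Fin.val h)

/-- The value of a selector. -/
lemma sel_iff {κ l n : ℕ} (hn : κ * l * 2 ≤ n) (x : Fin n → Bool) (k : Fin κ) :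
    (∃ p < n, (List.ofFn x).getD p false = true ∧ ∀ t < l,
      (List.ofFn x).getD (((k : ℕ) * l + t) * 2 + p / 2 ^ t % 2) false = true) ↔
      poolVal (code l) (AS hn) x k := by
  unfold poolVal
  have hbit : ∀ (p : ℕ) (t : ℕ), p / 2 ^ t % 2 = if p.testBit t then 1 else 0 := by
    intro p t
    rw [Nat.testBit_eq_decide_div_mod_eq]
    by_cases h : p / 2 ^ t % 2 = 1
    · simp [h]
    · have : p / 2 ^ t % 2 = 0 := by omega
      simp [this]
  constructor
  · rintro ⟨p, hp, h1, h2⟩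
    refine ⟨⟨p, hp⟩, by rwa [getD_ofFn x hp] at h1, fun t => ?_⟩
    have h3 := h2 t t.isLt
    rw [hbit] at h3
    have h4 : addrS ((k, t, code l (⟨p, hp⟩ : Fin n) t) : Fin κ × Fin l × Bool) < n :=
      (addrS_lt _).trans_le hn
    have h5 := getD_ofFn x h4
    show x ⟨addrS _, _⟩ = true
    rw [← h5]
    exact h3
  · rintro ⟨p, h1, h2⟩
    refine ⟨p, p.isLt, by rw [getD_ofFn x p.isLt]; exact h1, fun t ht => ?_⟩
    have h3 := h2 ⟨t, ht⟩
    rw [hbit]
    have h4 : addrS ((k, ⟨t, ht⟩, code l p ⟨t, ht⟩) : Fin κ × Fin l × Bool) < n :=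
      (addrS_lt _).trans_le hn
    have h5 := getD_ofFn x h4
    have h6 : x ⟨addrS ((k, ⟨t, ht⟩, code l p ⟨t, ht⟩) : Fin κ × Fin l × Bool), h4⟩ = true := h3
    rw [← h5] at h6
    exact h6

section

variable {n l : ℕ}

/-- The selectors of a scale fill an interval of `srho n l` selectors. -/
lemma blocks_le (j : ℕ) (hB : 1 ≤ sB l (2 ^ j)) :
    2 * sr n l (2 ^ j) * sB l (2 ^ j) ≤ srho n l := by
  unfold sr srho
  rcases Nat.eq_zero_or_pos l with h0 | h0
  · subst h0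
    simp
  have hl : 0 < 2 * l ^ 2 := by positivity
  rw [Nat.le_div_iff_mul_le hl]
  calc 2 * (n / (4 * l ^ 2 * sB l (2 ^ j))) * sB l (2 ^ j) * (2 * l ^ 2)
      = n / (4 * l ^ 2 * sB l (2 ^ j)) * (4 * l ^ 2 * sB l (2 ^ j)) := by ring
    _ ≤ n := Nat.div_mul_le_self _ _

lemma scales_le (hl : 1 ≤ l) : l * srho n l ≤ n / (2 * l) := by
  unfold srho
  rw [Nat.le_div_iff_mul_le (by omega)]
  calc l * (n / (2 * l ^ 2)) * (2 * l) = n / (2 * l ^ 2) * (2 * l ^ 2) := by ring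
    _ ≤ n := Nat.div_mul_le_self _ _

/-- The number of a selector of scale `j`. -/
lemma sel_lt {j h i v : ℕ} (hl : 1 ≤ l) (hj : j < l) (hh : h < 2 * sr n l (2 ^ j))
    (hi : i < sN l (2 ^ j)) (hv : v < sq l (2 ^ j)) :
    j * srho n l + h * sB l (2 ^ j) + (i * sq l (2 ^ j) + v) < (j + 1) * srho n l ∧
    j * srho n l + h * sB l (2 ^ j) + (i * sq l (2 ^ j) + v) < n / (2 * l) := by
  have hb : i * sq l (2 ^ j) + v + 1 ≤ sB l (2 ^ j) := by
    unfold sB
    have h1 : (i + 1) * sq l (2 ^ j) ≤ sN l (2 ^ j) * sq l (2 ^ j) := Nat.mul_le_mul_right _ hi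
    have h2 : (i + 1) * sq l (2 ^ j) = i * sq l (2 ^ j) + sq l (2 ^ j) := by ring
    omega
  have h3 : (h + 1) * sB l (2 ^ j) ≤ 2 * sr n l (2 ^ j) * sB l (2 ^ j) :=
    Nat.mul_le_mul_right _ hh
  have h4 : (h + 1) * sB l (2 ^ j) = h * sB l (2 ^ j) + sB l (2 ^ j) := by ring
  have h5 := blocks_le (n := n) (l := l) j (by omega)
  have h6 : (j + 1) * srho n l = j * srho n l + srho n l := by ring
  have h7 : (j + 1) * srho n l ≤ l * srho n l := Nat.mul_le_mul_right _ hj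
  have h8 := scales_le (n := n) hl
  constructor <;> omega

end

/-- After the restriction the language is the disjunction of `r'` copies. -/
theorem exists_restriction (d n j : ℕ) (hj : j < lgc n)
    (hc1 : (2 * 2 ^ j + 1) * lgc n ≤ n / d) (hc2 : sq (lgc n) (2 ^ j) ≤ n) (hl : 2 ≤ lgc n)
    (hnl : n ≤ 2 ^ lgc n) (U : Finset (Fin n)) (r' : ℕ) (hrr : r' ≤ sr n (lgc n) (2 ^ j))
    (hr : r' * (4 * sB (lgc n) (2 ^ j)) ≤ U.card) :
    ∃ φ : Fin n → (Fin r' × (Fin (sN (lgc n) (2 ^ j)) × ZMod (sq (lgc n) (2 ^ j)))) ⊕ Bool,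
      (∀ v, v ∉ U → ∃ c, φ v = .inr c) ∧
      ∀ y : Fin r' × (Fin (sN (lgc n) (2 ^ j)) × ZMod (sq (lgc n) (2 ^ j))) → Bool,
        langS d (List.ofFn fun v => Sum.elim y id (φ v)) = true ↔
          OrCopies (polyFn (sq (lgc n) (2 ^ j)) (2 ^ j) (sN (lgc n) (2 ^ j))) y := by
  classical
  obtain ⟨l, hldef⟩ : ∃ l, l = lgc n := ⟨_, rfl⟩
  rw [← hldef] at hj hc1 hc2 hl hnl hrr hr ⊢
  set κ := n / (2 * l) with hκ
  have hn : κ * l * 2 ≤ n := by
    calc κ * l * 2 = n / (2 * l) * (2 * l) := by rw [hκ]; ring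
      _ ≤ n := Nat.div_mul_le_self _ _
  have hcard : Fintype.card (Fin (sN l (2 ^ j)) × ZMod (sq l (2 ^ j))) = sB l (2 ^ j) := by
    rw [Fintype.card_prod, Fintype.card_fin, ZMod.card]
    rfl
  have hNpos : ∀ j' : ℕ, 0 < sN l (2 ^ j') := by
    intro j'
    unfold sN
    have : 0 < 2 ^ j' := by positivity
    positivity
  -- the selectors of the scale
  have hh : ∀ (b : Bool) (i : Fin (sr n l (2 ^ j))),
      (if b then sr n l (2 ^ j) else 0) + (i : ℕ) < 2 * sr n l (2 ^ j) := by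
    intro b i
    have := i.isLt
    split_ifs <;> omega
  let E : (Bool × Fin (sr n l (2 ^ j))) × (Fin (sN l (2 ^ j)) × ZMod (sq l (2 ^ j))) → Fin κ :=
    fun s => ⟨j * srho n l + ((if s.1.1 then sr n l (2 ^ j) else 0) + (s.1.2 : ℕ)) * sB l (2 ^ j)
      + ((s.2.1 : ℕ) * sq l (2 ^ j) + s.2.2.val),
      (sel_lt (by omega) hj (hh s.1.1 s.1.2) s.2.1.isLt (ZMod.val_lt s.2.2)).2⟩
  have hEv : ∀ s, (E s : ℕ) = j * srho n l
      + ((if s.1.1 then sr n l (2 ^ j) else 0) + (s.1.2 : ℕ)) * sB l (2 ^ j)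
      + ((s.2.1 : ℕ) * sq l (2 ^ j) + s.2.2.val) := fun s => rfl
  have hE : Function.Injective E := by
    rintro ⟨⟨b, i⟩, ⟨a, v⟩⟩ ⟨⟨b', i'⟩, ⟨a', v'⟩⟩ heq
    have h0 := congrArg Fin.val heq
    rw [hEv, hEv] at h0
    simp only at h0
    have hv : v.val < sq l (2 ^ j) := ZMod.val_lt v
    have hv' : v'.val < sq l (2 ^ j) := ZMod.val_lt v'
    have b1 : (a : ℕ) * sq l (2 ^ j) + v.val < sB l (2 ^ j) := by
      unfold sB
      have h1 : ((a : ℕ) + 1) * sq l (2 ^ j) ≤ sN l (2 ^ j) * sq l (2 ^ j) :=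
        Nat.mul_le_mul_right _ a.isLt
      have h2 : ((a : ℕ) + 1) * sq l (2 ^ j) = a * sq l (2 ^ j) + sq l (2 ^ j) := by ring
      omega
    have b1' : (a' : ℕ) * sq l (2 ^ j) + v'.val < sB l (2 ^ j) := by
      unfold sB
      have h1 : ((a' : ℕ) + 1) * sq l (2 ^ j) ≤ sN l (2 ^ j) * sq l (2 ^ j) :=
        Nat.mul_le_mul_right _ a'.isLt
      have h2 : ((a' : ℕ) + 1) * sq l (2 ^ j) = a' * sq l (2 ^ j) + sq l (2 ^ j) := by ring
      omega
    have h00 : ((if b then sr n l (2 ^ j) else 0) + (i : ℕ)) * sB l (2 ^ j)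
        + ((a : ℕ) * sq l (2 ^ j) + v.val)
        = ((if b' then sr n l (2 ^ j) else 0) + (i' : ℕ)) * sB l (2 ^ j)
        + ((a' : ℕ) * sq l (2 ^ j) + v'.val) := by omega
    obtain ⟨h5, h6⟩ := divmod_inj b1 b1' h00
    obtain ⟨h7, h8⟩ := divmod_inj hv hv' h6
    have hbi : b = b' ∧ i = i' := by
      have := i.isLt
      have := i'.isLt
      cases b <;> cases b' <;> simp at h5 ⊢ <;> omega
    obtain ⟨rfl, rfl⟩ := hbi
    have ha : a = a' := Fin.ext h7
    have hvv : v = v' := ZMod.val_injective _ h8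
    subst ha hvv
    rfl
  obtain ⟨φ, e, -, hφ, hsel⟩ := exists_pool_restriction hl (code l) (code_injective hnl) (AS hn)
    (AS_injective hn) E hE U r' hrr (by rw [hcard]; exact hr)
  refine ⟨φ, hφ, fun y => ?_⟩
  rw [langS_iff, ← hldef]
  constructor
  · rintro ⟨j', hj', hc1', hc2', h, hhr, c, hc⟩
    -- the selector of the first point
    have hfirst := hc 0 (hNpos j')
    have hlt := sel_lt (n := n) (by omega) hj' hhr (hNpos j') (ZMod.val_lt (pval c 0))
    set k : Fin κ := ⟨j' * srho n l + h * sB l (2 ^ j')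
      + (0 * sq l (2 ^ j') + (pval c 0).val), hlt.2⟩ with hk
    have hpv : poolVal (code l) (AS hn) (fun v => Sum.elim y id (φ v)) k :=
      (sel_iff hn _ k).mp hfirst
    have hchosen : ∃ i β, E (e i, β) = k := by
      by_contra hcon
      push Not at hcon
      exact (hsel y).2 k hcon hpv
    obtain ⟨i, β, hiβ⟩ := hchosen
    have h9 := congrArg Fin.val hiβ
    rw [hEv] at h9
    simp only [hk] at h9
    have hlt2 := sel_lt (n := n) (by omega) hj (hh (e i).1 (e i).2) β.1.isLt (ZMod.val_lt β.2)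
    -- the scale is the same
    have hjj : j' = j := by
      rcases lt_trichotomy j' j with h10 | h10 | h10
      · exfalso
        have h11 : (j' + 1) * srho n l ≤ j * srho n l := Nat.mul_le_mul_right _ h10
        have h12 := hlt.1
        omega
      · exact h10
      · exfalso
        have h11 : (j + 1) * srho n l ≤ j' * srho n l := Nat.mul_le_mul_right _ h10
        have h12 := hlt2.1
        omega
    subst hjj
    -- the block is the same
    have hsB : 0 * sq l (2 ^ j') + (pval c 0).val < sB l (2 ^ j') := by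
      unfold sB
      have h1 : 1 * sq l (2 ^ j') ≤ sN l (2 ^ j') * sq l (2 ^ j') :=
        Nat.mul_le_mul_right _ (hNpos j')
      have h2 := ZMod.val_lt (pval c 0)
      omega
    have hsB' : (β.1 : ℕ) * sq l (2 ^ j') + β.2.val < sB l (2 ^ j') := by
      unfold sB
      have h1 : ((β.1 : ℕ) + 1) * sq l (2 ^ j') ≤ sN l (2 ^ j') * sq l (2 ^ j') :=
        Nat.mul_le_mul_right _ β.1.isLt
      have h2 : ((β.1 : ℕ) + 1) * sq l (2 ^ j') = β.1 * sq l (2 ^ j') + sq l (2 ^ j') := by ring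
      have h3 := ZMod.val_lt β.2
      omega
    have h13 : ((if (e i).1 then sr n l (2 ^ j') else 0) + ((e i).2 : ℕ)) * sB l (2 ^ j')
        + ((β.1 : ℕ) * sq l (2 ^ j') + β.2.val)
        = h * sB l (2 ^ j') + (0 * sq l (2 ^ j') + (pval c 0).val) := by omega
    obtain ⟨h14, -⟩ := divmod_inj hsB' hsB h13
    refine ⟨i, ?_⟩
    rw [polyFn_iff]
    refine ⟨c, fun a => ?_⟩
    rw [← (hsel y).1 i (a, pval c (a : ℕ)), ← sel_iff hn]
    have h15 := hc a a.isLt
    rw [hEv]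
    simp only
    rw [h14]
    exact h15
  · rintro ⟨i, hi⟩
    rw [polyFn_iff] at hi
    obtain ⟨c, hc⟩ := hi
    refine ⟨j, hj, hc1, hc2, (if (e i).1 then sr n l (2 ^ j) else 0) + ((e i).2 : ℕ),
      hh _ _, c, fun a ha => ?_⟩
    have h1 := ((hsel y).1 i (⟨a, ha⟩, pval c a)).mpr (hc ⟨a, ha⟩)
    rw [← sel_iff hn, hEv] at h1
    exact h1

end Pool.Agent.LocS
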