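import Pool.Agent.LocE.Lang

/-!
# A language with blocks of all scales: definition, time, monotonicity, meaning
-/

set_option autoImplicit false

namespace Pool.Agent.LocS

open Finset Pool.Agent.PolyTime Pool.Agent.NegLim Pool.Agent.NegLim.Lang Pool.Agent.NegLim.NPL
  Pool.Agent.LocE

/-- The number of points of a block of scale `w`. -/
def sN (l w : ℕ) : ℕ := 4 * w * l

/-- The modulus. -/
noncomputable def sq (l w : ℕ) : ℕ := gp (1024 * (w * (l + 1) ^ 2))

/-- The number of selectors of a block. -/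
noncomputable def sB (l w : ℕ) : ℕ := sN l w * sq l w

/-- The number of blocks of scale `w` is `2 sr`. -/
noncomputable def sr (n l w : ℕ) : ℕ := n / (4 * l ^ 2 * sB l w)

/-- The number of selectors of every scale. -/
def srho (n l : ℕ) : ℕ := n / (2 * l ^ 2)

/-- The language, on padded inputs. -/
def PLangS (y : List Bool) : Prop :=
  ∃ j < lgc (wlen y), (2 * pw 2 y.length j + 1) * lgc (wlen y) < lgc (lead y - 1) ∧
    sq (lgc (wlen y)) (pw 2 y.length j) ≤ wlen y ∧
    ∃ h < 2 * sr (wlen y) (lgc (wlen y)) (pw 2 y.length j),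
      GAcc (2 * pw 2 y.length j) (sN (lgc (wlen y)) (pw 2 y.length j))
        (sq (lgc (wlen y)) (pw 2 y.length j)) y.length (wlen y) (lgc (wlen y))
        (j * srho (wlen y) (lgc (wlen y)) + h * sB (lgc (wlen y)) (pw 2 y.length j)) (wbit y)

section

variable {α : Type} [Ctx α]

lemma pf_sN {L W : List Bool → α → ℕ} (hL : PF L) (hW : PF W) :
    PF (fun y a => sN (L y a) (W y a)) := ((PF.const 4).mul hW).mul hL

lemma pf_sq {L W : List Bool → α → ℕ} (hL : PF L) (hW : PF W) :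
    PF (fun y a => sq (L y a) (W y a)) :=
  pf_gp ((PF.const 1024).mul (hW.mul ((hL.add (PF.const 1)).pow 2)))

lemma pf_sB {L W : List Bool → α → ℕ} (hL : PF L) (hW : PF W) :
    PF (fun y a => sB (L y a) (W y a)) := (pf_sN hL hW).mul (pf_sq hL hW)

lemma pf_sr {N L W : List Bool → α → ℕ} (hN : PF N) (hL : PF L) (hW : PF W) :
    PF (fun y a => sr (N y a) (L y a) (W y a)) :=
  hN.div (((PF.const 4).mul (hL.pow 2)).mul (pf_sB hL hW))

lemma pf_srho {N L : List Bool → α → ℕ} (hN : PF N) (hL : PF L) :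
    PF (fun y a => srho (N y a) (L y a)) := hN.div ((PF.const 2).mul (hL.pow 2))

theorem pd_plangS : PD (fun y (_ : α) => PLangS y) := by
  have hl : ∀ {β : Type} [Ctx β], PF (fun y (_ : β) => lgc (wlen y)) := fun {β} _ =>
    pf_lgc pf_wlen
  -- context `α × ℕ`: the scale
  have hw : PF (fun y (r : α × ℕ) => pw 2 y.length r.2) := pf_pw (PF.const 2) PF.len PF.snd
  have c1 : PD (fun y (r : α × ℕ) =>
      (2 * pw 2 y.length r.2 + 1) * lgc (wlen y) < lgc (lead y - 1)) :=
    PD.lt ((((PF.const 2).mul hw).add (PF.const 1)).mul hl)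
      (pf_lgc (pf_lead.sub (PF.const 1)))
  have c2 : PD (fun y (r : α × ℕ) => sq (lgc (wlen y)) (pw 2 y.length r.2) ≤ wlen y) :=
    PD.le (pf_sq hl hw) pf_wlen
  have hw3 : PF (fun y (t : (α × ℕ) × ℕ) => pw 2 y.length t.1.2) := hw.fst
  have c3 : PD (fun y (t : (α × ℕ) × ℕ) =>
      GAcc (2 * pw 2 y.length t.1.2) (sN (lgc (wlen y)) (pw 2 y.length t.1.2))
        (sq (lgc (wlen y)) (pw 2 y.length t.1.2)) y.length (wlen y) (lgc (wlen y))
        (t.1.2 * srho (wlen y) (lgc (wlen y)) + t.2 * sB (lgc (wlen y)) (pw 2 y.length t.1.2))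
        (wbit y)) :=
    pd_gacc ((PF.const 2).mul hw3) (pf_sN hl hw3) (pf_sq hl hw3)
      ((PF.snd.fst.mul (pf_srho pf_wlen hl)).add (PF.snd.mul (pf_sB hl hw3)))
  have c4 := PD.exists_lt (B := fun y (r : α × ℕ) =>
      2 * sr (wlen y) (lgc (wlen y)) (pw 2 y.length r.2))
    ((PF.const 2).mul (pf_sr pf_wlen hl hw)) c3
  exact PD.exists_lt (B := fun y (_ : α) => lgc (wlen y))
    (P := fun y (r : α × ℕ) =>
      (2 * pw 2 y.length r.2 + 1) * lgc (wlen y) < lgc (lead y - 1) ∧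
      sq (lgc (wlen y)) (pw 2 y.length r.2) ≤ wlen y ∧
      ∃ h < 2 * sr (wlen y) (lgc (wlen y)) (pw 2 y.length r.2),
        GAcc (2 * pw 2 y.length r.2) (sN (lgc (wlen y)) (pw 2 y.length r.2))
          (sq (lgc (wlen y)) (pw 2 y.length r.2)) y.length (wlen y) (lgc (wlen y))
          (r.2 * srho (wlen y) (lgc (wlen y)) + h * sB (lgc (wlen y)) (pw 2 y.length r.2))
          (wbit y)) hl (c1.and (c2.and c4))

end

open Classical in
theorem plangS_polyTime : Nonempty (Turing.TM2ComputableInPolyTime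
    (id : List Bool → List Bool) (id : List Bool → List Bool)
    (fun y => [decide (PLangS y)])) := by
  apply PFBits.polyTime
  refine ⟨fun _ => 1, fun w _ => if PLangS w then 1 else 0, PF.const 1, ?_, ?_⟩
  · exact PF.ite (P := fun w (_ : Unit × ℕ) => PLangS w) pd_plangS (PF.const 1)
      (PF.const 0)
  · intro w
    by_cases h : PLangS w <;> simp [h]

open Classical in
/-- The language. -/
noncomputable def langS (d : ℕ) (x : List Bool) : Bool :=
  decide (PLangS (padW (x.length / d) x))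

theorem langS_time : ∃ d : ℕ, 1 ≤ d ∧ ∃ c : ℕ,
    DecidableInTime (langS d) (fun n => c * 2 ^ n) := by
  classical
  obtain ⟨d, hd, c, hc⟩ := decidable_of_padded (fun y => decide (PLangS y)) (by
    have := plangS_polyTime
    convert this)
  refine ⟨d, hd, c, ?_⟩
  convert hc using 2
  unfold langS
  congr

open Classical in
lemma langS_eq_true_iff (d : ℕ) (x : List Bool) :
    langS d x = true ↔ PLangS (padW (x.length / d) x) := by
  unfold langS
  exact decide_eq_true_iff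

/-- Monotonicity. -/
lemma langS_mono (d n : ℕ) : Monotone fun x : Fin n → Bool => langS d (List.ofFn x) := by
  intro x y hxy
  rw [Bool.le_iff_imp]
  simp only
  intro hx
  rw [langS_eq_true_iff] at hx ⊢
  unfold PLangS at hx ⊢
  have hb : ∀ i, wbit (padW ((List.ofFn x).length / d) (List.ofFn x)) i = true →
      wbit (padW ((List.ofFn y).length / d) (List.ofFn y)) i = true := by
    intro i hi
    rw [wbit_padW] at hi ⊢
    by_cases hlt : i < n
    · rw [List.getD_eq_getElem _ _ (by simpa using hlt), List.getElem_ofFn] at hi ⊢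
      exact Bool.le_iff_imp.mp (hxy _) hi
    · rw [List.getD_eq_default _ _ (by simpa using hlt)] at hi
      exact absurd hi (by simp)
  rw [wlen_padW, length_padW, lead_padW] at hx ⊢
  simp only [List.length_ofFn] at hx hb ⊢
  obtain ⟨j, hj, hc1, hc2, h, hh, u, hu, H⟩ := hx
  refine ⟨j, hj, hc1, hc2, h, hh, u, hu, fun i hi => ?_⟩
  obtain ⟨s, hs, h0, h1, p, hp, h2, h3⟩ := H i hi
  exact ⟨s, hs, h0, h1, p, hp, hb _ h2, fun t ht => hb _ (h3 t ht)⟩

lemma sq_pos_arg (l j : ℕ) : 2 ≤ 1024 * (2 ^ j * (l + 1) ^ 2) := by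
  have h1 : 1 ≤ 2 ^ j := Nat.one_le_two_pow
  have h2 : 1 ≤ (l + 1) ^ 2 := Nat.one_le_pow _ _ (by omega)
  have h3 : 1 * 1 ≤ 2 ^ j * (l + 1) ^ 2 := Nat.mul_le_mul h1 h2
  omega

lemma sq_spec (l j : ℕ) : (sq l (2 ^ j)).Prime ∧ sq l (2 ^ j) ≤ 1024 * (2 ^ j * (l + 1) ^ 2) ∧
    1024 * (2 ^ j * (l + 1) ^ 2) < 2 * sq l (2 ^ j) := gp_spec _ (sq_pos_arg l j)

instance (l j : ℕ) : Fact (sq l (2 ^ j)).Prime := ⟨(sq_spec l j).1⟩

/-- The meaning of the language. -/
theorem langS_iff (d n : ℕ) (x : Fin n → Bool) :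
    langS d (List.ofFn x) = true ↔
      ∃ j < lgc n, (2 * 2 ^ j + 1) * lgc n ≤ n / d ∧ sq (lgc n) (2 ^ j) ≤ n ∧
      ∃ h < 2 * sr n (lgc n) (2 ^ j), ∃ c : Fin (2 * 2 ^ j) → ZMod (sq (lgc n) (2 ^ j)),
        ∀ i < sN (lgc n) (2 ^ j),
        ∃ p < n, (List.ofFn x).getD p false = true ∧ ∀ t < lgc n,
          (List.ofFn x).getD (((j * srho n (lgc n) + h * sB (lgc n) (2 ^ j)
            + (i * sq (lgc n) (2 ^ j) + (pval c i).val)) * lgc n + t) * 2
            + p / 2 ^ t % 2) false = true := by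
  classical
  rw [langS_eq_true_iff]
  unfold PLangS
  rw [wlen_padW, length_padW, lead_padW, List.length_ofFn]
  have hb' : wbit (padW (n / d) (List.ofFn x)) = fun i => (List.ofFn x).getD i false :=
    funext fun i => wbit_padW _ _ i
  rw [hb']
  have hpos : 0 < 2 ^ (n / d) := by positivity
  have hlg : lgc (2 ^ (n / d) - 1) = n / d + 1 := by
    rw [lgc_eq, Nat.sub_add_cancel hpos, Nat.log_pow (by norm_num)]
  rw [hlg]
  set l := lgc n with hl
  have hl2 : 2 ^ (l - 1) ≤ n + 1 := by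
    rw [hl, lgc_eq, Nat.add_sub_cancel]
    exact Nat.pow_log_le_self 2 (by omega)
  have hnl : n < 2 ^ l := by
    rw [hl, lgc_eq]
    have := Nat.lt_pow_succ_log_self (b := 2) (by norm_num) (n + 1)
    have h3 : Nat.succ (Nat.log 2 (n + 1)) = Nat.log 2 (n + 1) + 1 := rfl
    rw [← h3]
    omega
  refine exists_congr fun j => and_congr_right fun hj => ?_
  have hpw : pw 2 (2 ^ (n / d) + (n + 1)) j = 2 ^ j := by
    apply pw_eq Nat.prime_two
    have h1 : 2 ^ j ≤ 2 ^ (l - 1) := Nat.pow_le_pow_right (by norm_num) (by omega)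
    omega
  rw [hpw, Nat.lt_succ_iff]
  refine and_congr_right fun hc1 => and_congr_right fun hc2 => ?_
  refine exists_congr fun h => and_congr_right fun _ => ?_
  have hS' : sq l (2 ^ j) ^ (2 * 2 ^ j + 1) ≤ 2 ^ (n / d) + (n + 1) := by
    calc sq l (2 ^ j) ^ (2 * 2 ^ j + 1) ≤ (2 ^ l) ^ (2 * 2 ^ j + 1) :=
          Nat.pow_le_pow_left (hc2.trans hnl.le) _
      _ = 2 ^ ((2 * 2 ^ j + 1) * l) := by rw [← pow_mul, mul_comm]
      _ ≤ 2 ^ (n / d) := Nat.pow_le_pow_right (by norm_num) hc1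
      _ ≤ 2 ^ (n / d) + (n + 1) := Nat.le_add_right _ _
  rw [gacc_iff_acc, acc_iff hS']
  refine exists_congr fun c => forall₂_congr fun i _ => ?_
  rw [decide_eq_true_eq, sv_iff (by omega)]

end Pool.Agent.LocS
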