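import Pool.Agent.LocS.Addr
import Pool.Agent.NegLim.NPSem

/-!
# The language is in NP
-/

set_option autoImplicit false

namespace Pool.Agent.LocS

open Finset Pool.Agent.PolyTime Pool.Agent.NegLim Pool.Agent.NegLim.Lang Pool.Agent.NegLim.NPL
  Pool.Agent.LocE

/-- The certificate `wb` shows that the selectors `k + v` contain the graph of a polynomial with `c`
coefficients modulo `q` over the points `0, ..., N - 1`. -/
def GV (c N q S n l k : ℕ) (xb wb : ℕ → Bool) : Prop :=
  ∀ i < N, tval wb q (c + i * (c + 1)) = 0 ∧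
    (∀ j < c, tval wb q (c + i * (c + 1) + (j + 1))
      = (tval wb q (c + i * (c + 1) + j) * i + tval wb q j) % q) ∧
    SV S n l xb (k + (i * q + tval wb q (c + i * (c + 1) + c)))

/-- The verifier. -/
def VerS (d : ℕ) (y : List Bool) : Prop :=
  ∃ j < lgc (plen y), (2 * pw 2 y.length j + 1) * lgc (plen y) ≤ plen y / d ∧
    sq (lgc (plen y)) (pw 2 y.length j) ≤ plen y ∧
    ∃ h < 2 * sr (plen y) (lgc (plen y)) (pw 2 y.length j),
      GV (2 * pw 2 y.length j) (sN (lgc (plen y)) (pw 2 y.length j))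
        (sq (lgc (plen y)) (pw 2 y.length j)) y.length (plen y) (lgc (plen y))
        (j * srho (plen y) (lgc (plen y)) + h * sB (lgc (plen y)) (pw 2 y.length j))
        (xbit y) (sbit y)

section

variable {α : Type} [Ctx α]

lemma pd_svx {K : List Bool → α → ℕ} (hK : PF K) :
    PD (fun y a => SV y.length (plen y) (lgc (plen y)) (xbit y) (K y a)) := by
  have hl : PF (fun y (r : (α × ℕ) × ℕ) => lgc (plen y)) := pf_lgc pf_plen
  have hk : PF (fun y (r : (α × ℕ) × ℕ) => K y r.1.1) := hK.fst.fst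
  have hp : PF (fun (_ : List Bool) (r : (α × ℕ) × ℕ) => r.1.2) := PF.snd.fst
  have h1 : PD (fun y (r : (α × ℕ) × ℕ) =>
      xbit y ((K y r.1.1 * lgc (plen y) + r.2) * 2 + dig 2 y.length r.1.2 r.2) = true) :=
    pd_xbit ((((hk.mul hl).add PF.snd).mul (PF.const 2)).add
      (pf_dig (PF.const 2) PF.len hp PF.snd))
  have h2 := PD.forall_lt (B := fun y (_ : α × ℕ) => lgc (plen y)) (pf_lgc pf_plen) h1
  have h3 : PD (fun y (r : α × ℕ) => xbit y r.2 = true) := pd_xbit PF.snd
  exact PD.exists_lt (B := fun y (_ : α) => plen y)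
    (P := fun y (r : α × ℕ) => xbit y r.2 = true ∧ ∀ t < lgc (plen y),
      xbit y ((K y r.1 * lgc (plen y) + t) * 2 + dig 2 y.length r.2 t) = true)
    pf_plen (h3.and h2)

lemma pd_gv {C N Q K : List Bool → α → ℕ} (hC : PF C) (hN : PF N) (hQ : PF Q) (hK : PF K) :
    PD (fun y a => GV (C y a) (N y a) (Q y a) y.length (plen y) (lgc (plen y)) (K y a)
      (xbit y) (sbit y)) := by
  -- contexts: α, i, j
  have hi : PF (fun (_ : List Bool) (r : α × ℕ) => r.2) := PF.snd
  have hC1 : PF (fun y (r : α × ℕ) => C y r.1) := hC.fst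
  have hQ1 : PF (fun y (r : α × ℕ) => Q y r.1) := hQ.fst
  have hb : PF (fun y (r : α × ℕ) => C y r.1 + r.2 * (C y r.1 + 1)) :=
    hC1.add (hi.mul (hC1.add (PF.const 1)))
  have c1 : PD (fun y (r : α × ℕ) => tval (sbit y) (Q y r.1) (C y r.1 + r.2 * (C y r.1 + 1)) = 0) :=
    PD.eq (pf_tval hQ1 hb) (PF.const 0)
  have c2 : PD (fun y (r : α × ℕ) => ∀ j < C y r.1,
      tval (sbit y) (Q y r.1) (C y r.1 + r.2 * (C y r.1 + 1) + (j + 1))
        = (tval (sbit y) (Q y r.1) (C y r.1 + r.2 * (C y r.1 + 1) + j) * r.2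
            + tval (sbit y) (Q y r.1) j) % Q y r.1) :=
    PD.forall_lt (P := fun y (t : (α × ℕ) × ℕ) =>
      tval (sbit y) (Q y t.1.1) (C y t.1.1 + t.1.2 * (C y t.1.1 + 1) + (t.2 + 1))
        = (tval (sbit y) (Q y t.1.1) (C y t.1.1 + t.1.2 * (C y t.1.1 + 1) + t.2) * t.1.2
            + tval (sbit y) (Q y t.1.1) t.2) % Q y t.1.1) hC1
      (PD.eq (pf_tval hQ1.fst (hb.fst.add (PF.snd.add (PF.const 1))))
        ((((pf_tval hQ1.fst (hb.fst.add PF.snd)).mul hi.fst).add
          (pf_tval hQ1.fst PF.snd)).mod hQ1.fst))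
  have c3 : PD (fun y (r : α × ℕ) =>
      SV y.length (plen y) (lgc (plen y)) (xbit y)
        (K y r.1 + (r.2 * Q y r.1
          + tval (sbit y) (Q y r.1) (C y r.1 + r.2 * (C y r.1 + 1) + C y r.1)))) :=
    pd_svx (hK.fst.add ((hi.mul hQ1).add (pf_tval hQ1 (hb.add hC1))))
  exact PD.forall_lt (B := fun y (r : α) => N y r)
    (P := fun y (r : α × ℕ) => tval (sbit y) (Q y r.1) (C y r.1 + r.2 * (C y r.1 + 1)) = 0 ∧
      (∀ j < C y r.1,
      tval (sbit y) (Q y r.1) (C y r.1 + r.2 * (C y r.1 + 1) + (j + 1))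
        = (tval (sbit y) (Q y r.1) (C y r.1 + r.2 * (C y r.1 + 1) + j) * r.2
            + tval (sbit y) (Q y r.1) j) % Q y r.1) ∧
      SV y.length (plen y) (lgc (plen y)) (xbit y)
        (K y r.1 + (r.2 * Q y r.1
          + tval (sbit y) (Q y r.1) (C y r.1 + r.2 * (C y r.1 + 1) + C y r.1))))
    hN (c1.and (c2.and c3))

theorem pd_verS (d : ℕ) : PD (fun y (_ : α) => VerS d y) := by
  have hl : ∀ {β : Type} [Ctx β], PF (fun y (_ : β) => lgc (plen y)) := fun {β} _ =>
    pf_lgc pf_plen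
  have hw : PF (fun y (r : α × ℕ) => pw 2 y.length r.2) := pf_pw (PF.const 2) PF.len PF.snd
  have c1 : PD (fun y (r : α × ℕ) =>
      (2 * pw 2 y.length r.2 + 1) * lgc (plen y) ≤ plen y / d) :=
    PD.le ((((PF.const 2).mul hw).add (PF.const 1)).mul hl) (pf_plen.div (PF.const d))
  have c2 : PD (fun y (r : α × ℕ) => sq (lgc (plen y)) (pw 2 y.length r.2) ≤ plen y) :=
    PD.le (pf_sq hl hw) pf_plen
  have hw3 : PF (fun y (t : (α × ℕ) × ℕ) => pw 2 y.length t.1.2) := hw.fst
  have c3 : PD (fun y (t : (α × ℕ) × ℕ) =>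
      GV (2 * pw 2 y.length t.1.2) (sN (lgc (plen y)) (pw 2 y.length t.1.2))
        (sq (lgc (plen y)) (pw 2 y.length t.1.2)) y.length (plen y) (lgc (plen y))
        (t.1.2 * srho (plen y) (lgc (plen y)) + t.2 * sB (lgc (plen y)) (pw 2 y.length t.1.2))
        (xbit y) (sbit y)) :=
    pd_gv ((PF.const 2).mul hw3) (pf_sN hl hw3) (pf_sq hl hw3)
      ((PF.snd.fst.mul (pf_srho pf_plen hl)).add (PF.snd.mul (pf_sB hl hw3)))
  have c4 := PD.exists_lt (B := fun y (r : α × ℕ) =>
      2 * sr (plen y) (lgc (plen y)) (pw 2 y.length r.2))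
    ((PF.const 2).mul (pf_sr pf_plen hl hw)) c3
  exact PD.exists_lt (B := fun y (_ : α) => lgc (plen y))
    (P := fun y (r : α × ℕ) =>
      (2 * pw 2 y.length r.2 + 1) * lgc (plen y) ≤ plen y / d ∧
      sq (lgc (plen y)) (pw 2 y.length r.2) ≤ plen y ∧
      ∃ h < 2 * sr (plen y) (lgc (plen y)) (pw 2 y.length r.2),
        GV (2 * pw 2 y.length r.2) (sN (lgc (plen y)) (pw 2 y.length r.2))
          (sq (lgc (plen y)) (pw 2 y.length r.2)) y.length (plen y) (lgc (plen y))
          (r.2 * srho (plen y) (lgc (plen y)) + h * sB (lgc (plen y)) (pw 2 y.length r.2))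
          (xbit y) (sbit y)) hl (c1.and (c2.and c4))

end

open Classical in
theorem verS_polyTime (d : ℕ) : Nonempty (Turing.TM2ComputableInPolyTime
    (id : List Bool → List Bool) (id : List Bool → List Bool)
    (fun y => [decide (VerS d y)])) := by
  apply PFBits.polyTime
  refine ⟨fun _ => 1, fun w _ => if VerS d w then 1 else 0, PF.const 1, ?_, ?_⟩
  · exact PF.ite (P := fun w (_ : Unit × ℕ) => VerS d w) (pd_verS d) (PF.const 1) (PF.const 0)
  · intro w
    by_cases h : VerS d w <;> simp [h]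

open Classical in
lemma gv_iff_vacc (c N q S n l k : ℕ) (xb wb : ℕ → Bool) :
    GV c N q S n l k xb wb ↔ VAcc c N q (fun v => decide (SV S n l xb (k + v))) wb := by
  unfold GV VAcc
  simp only [decide_eq_true_eq]

open Classical in
/-- **The language is in NP.** -/
theorem langS_inNP (d : ℕ) : InNP (langS d) := by
  refine ⟨fun y => decide (VerS d y), 4, verS_polyTime d, fun z => ?_⟩
  obtain ⟨n, x, rfl⟩ : ∃ (n : ℕ) (x : Fin n → Bool), z = List.ofFn x :=
    ⟨z.length, fun i => z.get i, (List.ofFn_get z).symm⟩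
  rw [langS_iff]
  simp only [decide_eq_true_eq]
  rcases Nat.eq_zero_or_pos n with hn0 | hn
  · -- the empty word
    subst hn0
    constructor
    · rintro ⟨j, -, -, -, h, hh, -⟩
      exfalso
      unfold sr at hh
      rw [Nat.zero_div] at hh
      omega
    · rintro ⟨w, -, j, -, -, -, h, hh, -⟩
      exfalso
      rw [plen_pair, List.length_ofFn] at hh
      unfold sr at hh
      rw [Nat.zero_div] at hh
      omega
  set l := lgc n with hl
  have hl2 : 2 ^ (l - 1) ≤ n + 1 := by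
    rw [hl, lgc_eq, Nat.add_sub_cancel]
    exact Nat.pow_log_le_self 2 (by omega)
  have hl1 : 1 ≤ l := by
    rw [hl, lgc_eq]
    omega
  -- the length of a pair
  have hlen : ∀ w : List Bool, n + 1 < (pairWord (List.ofFn x) w).length := by
    intro w
    rw [length_pairWord, List.length_ofFn]
    omega
  have hpw : ∀ (w : List Bool) (j : ℕ), j < l →
      pw 2 (pairWord (List.ofFn x) w).length j = 2 ^ j := by
    intro w j hj
    apply pw_eq Nat.prime_two
    have h1 : 2 ^ j ≤ 2 ^ (l - 1) := Nat.pow_le_pow_right (by norm_num) (by omega)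
    have := hlen w
    omega
  -- the value of a selector
  have hsv : ∀ (w : List Bool) (k : ℕ), k < n / (2 * l) →
      (SV (pairWord (List.ofFn x) w).length n l (xbit (pairWord (List.ofFn x) w)) k ↔
        ∃ p < n, (List.ofFn x).getD p false = true ∧ ∀ t < l,
          (List.ofFn x).getD ((k * l + t) * 2 + p / 2 ^ t % 2) false = true) := by
    intro w k hk
    rw [sv_iff (by have := hlen w; omega)]
    have hk2 : (k + 1) * (2 * l) ≤ n :=
      (Nat.mul_le_mul_right _ hk).trans (Nat.div_mul_le_self _ _)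
    refine exists_congr fun p => and_congr_right fun hp => ?_
    rw [xbit_pair _ _ _ (by rw [List.length_ofFn]; exact hp)]
    refine and_congr_right fun _ => forall₂_congr fun t ht => ?_
    rw [xbit_pair _ _ _ (by
      rw [List.length_ofFn]
      have h1 : p / 2 ^ t % 2 ≤ 1 := by omega
      have h2 : (k + 1) * (2 * l) = k * l * 2 + 2 * l := by ring
      have h3 : (k * l + t) * 2 = k * l * 2 + 2 * t := by ring
      omega)]
  constructor
  · rintro ⟨j, hj, hc1, hc2, h, hh, c, hc⟩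
    have hqp : (sq l (2 ^ j)).Prime := (sq_spec l j).1
    have hB : sB l (2 ^ j) ≤ n := by
      by_contra hcon
      unfold sr at hh
      rw [Nat.div_eq_of_lt (lt_of_lt_of_le (not_le.mp hcon)
        (Nat.le_mul_of_pos_left _ (by positivity)))] at hh
      omega
    -- the coefficients
    have hacc : Acc (2 * 2 ^ j) (sN l (2 ^ j)) (sq l (2 ^ j)) (sq l (2 ^ j) ^ (2 * 2 ^ j + 1))
        (fun v => decide (∃ p < n, (List.ofFn x).getD p false = true ∧ ∀ t < l,
          (List.ofFn x).getD (((j * srho n l + h * sB l (2 ^ j) + v) * l + t) * 2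
            + p / 2 ^ t % 2) false = true)) := by
      rw [acc_iff le_rfl]
      exact ⟨c, fun i hi => by rw [decide_eq_true_eq]; exact hc i hi⟩
    rw [acc_iff_hor hqp le_rfl] at hacc
    obtain ⟨f, hf, hH⟩ := hacc
    obtain ⟨w, hwl, hv⟩ := hor_vacc (c := 2 * 2 ^ j) (N := sN l (2 ^ j))
      (xb := fun v => decide (∃ p < n, (List.ofFn x).getD p false = true ∧ ∀ t < l,
          (List.ofFn x).getD (((j * srho n l + h * sB l (2 ^ j) + v) * l + t) * 2
            + p / 2 ^ t % 2) false = true)) hqp.pos hf hH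
    refine ⟨w, ?_, ?_⟩
    · rw [hwl, List.length_ofFn]
      have hcN : 2 * 2 ^ j ≤ sN l (2 ^ j) := by
        unfold sN
        calc 2 * 2 ^ j ≤ 4 * 2 ^ j := by omega
          _ = 4 * 2 ^ j * 1 := by ring
          _ ≤ 4 * 2 ^ j * l := Nat.mul_le_mul_left _ hl1
      have hNn : sN l (2 ^ j) ≤ n := by
        refine le_trans ?_ hB
        unfold sB
        exact Nat.le_mul_of_pos_right _ hqp.pos
      have h1 : (2 * 2 ^ j + sN l (2 ^ j) * (2 * 2 ^ j + 1)) * sq l (2 ^ j)
          ≤ (sN l (2 ^ j) + sN l (2 ^ j) * (sN l (2 ^ j) + 1)) * sq l (2 ^ j) := by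
        apply Nat.mul_le_mul_right
        have : sN l (2 ^ j) * (2 * 2 ^ j + 1) ≤ sN l (2 ^ j) * (sN l (2 ^ j) + 1) :=
          Nat.mul_le_mul_left _ (by omega)
        omega
      have h2 : (sN l (2 ^ j) + sN l (2 ^ j) * (sN l (2 ^ j) + 1)) * sq l (2 ^ j)
          = (sN l (2 ^ j) + 2) * (sB l (2 ^ j)) := by
        unfold sB
        ring
      have h3 : (sN l (2 ^ j) + 2) * (sB l (2 ^ j)) ≤ (n + 2) * n :=
        Nat.mul_le_mul (by omega) hB
      have h4 : (n + 2) * n ≤ n ^ 4 + 4 := pow4_bound n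
      omega
    · unfold VerS
      rw [plen_pair, List.length_ofFn, ← hl]
      refine ⟨j, hj, ?_⟩
      rw [hpw w j hj]
      refine ⟨hc1, hc2, h, hh, ?_⟩
      rw [gv_iff_vacc]
      have hs : sbit (pairWord (List.ofFn x) w) = fun i => w.getD i false := by
        funext i
        exact sbit_pair _ _ _
      rw [hs]
      refine vacc_mono (fun i hi h => ?_) hv
      rw [decide_eq_true_eq] at h ⊢
      have hlt := (sel_lt (n := n) hl1 hj hh hi (tval_lt (fun i => w.getD i false) hqp.pos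
        (2 * 2 ^ j + i * (2 * 2 ^ j + 1) + 2 * 2 ^ j))).2
      rw [hsv w _ hlt]
      exact h
  · rintro ⟨w, -, hv⟩
    unfold VerS at hv
    rw [plen_pair, List.length_ofFn, ← hl] at hv
    obtain ⟨j, hj, hv⟩ := hv
    rw [hpw w j hj] at hv
    obtain ⟨hc1, hc2, h, hh, hg⟩ := hv
    have hqp : (sq l (2 ^ j)).Prime := (sq_spec l j).1
    refine ⟨j, hj, hc1, hc2, h, hh, ?_⟩
    rw [gv_iff_vacc] at hg
    have h1 := vacc_hor hg
    have hacc : Acc (2 * 2 ^ j) (sN l (2 ^ j)) (sq l (2 ^ j)) (sq l (2 ^ j) ^ (2 * 2 ^ j + 1))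
        (fun v => decide (∃ p < n, (List.ofFn x).getD p false = true ∧ ∀ t < l,
          (List.ofFn x).getD (((j * srho n l + h * sB l (2 ^ j) + v) * l + t) * 2
            + p / 2 ^ t % 2) false = true)) := by
      rw [acc_iff_hor hqp le_rfl]
      refine ⟨tval (sbit (pairWord (List.ofFn x) w)) (sq l (2 ^ j)),
        fun t => tval_lt _ hqp.pos t, fun i hi => ?_⟩
      have h2 := h1 i hi
      rw [decide_eq_true_eq] at h2 ⊢
      have hlt := (sel_lt (n := n) hl1 hj hh hi (hor_lt hqp.pos i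
        (tval (sbit (pairWord (List.ofFn x) w)) (sq l (2 ^ j))) (2 * 2 ^ j))).2
      rw [hsv w _ hlt] at h2
      exact h2
    rw [acc_iff le_rfl] at hacc
    obtain ⟨c, hc⟩ := hacc
    exact ⟨c, fun i hi => by
      have h3 := hc i hi
      rw [decide_eq_true_eq] at h3
      exact h3⟩

end Pool.Agent.LocS
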