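import Pool.Agent.LocS.Num
import Pool.Agent.LocS.NP
import Pool.Agent.RC.LocR

/-!
# One language for all sizes: real circuits whose NOT gates rarely change on a set of variables
-/

set_option autoImplicit false

namespace Pool.Agent.LocS

open Finset Pool.Agent.NegLim Pool.Agent.NegLim.Lang Pool.Agent.NegLim.NPL Pool.Agent.NTR
  Pool.Agent.NTN Pool.Agent.PolyTime Pool.Agent.LocE Pool.Agent.RC
open scoped BigOperators

open Classical in
/-- One length, one size and one set `U`. -/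
theorem one_lengthS (d n s r' : ℕ) (hn : 1 ≤ n) (hd : 1 ≤ d) (U : Finset (Fin n))
    (hU : d * sD (lgc n) (sj s (lgc n)) ≤ U.card) (hr1 : 1 ≤ r')
    (hr : r' * sD (lgc n) (sj s (lgc n)) ≤ U.card) :
    ∃ (ρ : Fin n → Bool) (μ : (Fin n → Bool) → ℝ), (∀ x, 0 ≤ μ x) ∧ ∑ x, μ x = 1 ∧
      (∀ x, μ x ≠ 0 → ∀ v, v ∉ U → x v = ρ v) ∧
      (∀ (T b : ℕ) (C : RCircuit (Fin n)) (out : Fin T → Wire (Fin n)) (ψ : Fin T → ℝ →o Bool)
        (g : (Fin T → Bool) → Bool), C.size + T ≤ 2 ^ s + n →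
        ChangesOn U (fun x => C.notVals x) b →
        ∑ x with g (fun i => ψ i (C.val x (out i))) = langS d (List.ofFn x), μ x
          ≤ 1 / 2 + (1 / n) / 2 + (T + 1) * b / (2 * r')) ∧
      ∀ (S : ℕ) (ts : List ℕ) (T b : ℕ) (A : (Fin n → Bool) → Bool),
        (ts.sum + T) * (S + 1) ≤ 2 ^ s + n → Tries (realClass S) U ts T b A →
        ∑ x with A x = langS d (List.ofFn x), μ x
          ≤ 1 / 2 + (1 / n) / 2 + (T + 1) * b / (2 * r') := by
  have hUn : U.card ≤ n := (Finset.card_le_univ U).trans (by simp)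
  obtain ⟨hj, hc1, hc2, hB⟩ := numbers n d s hn hd (hU.trans hUn)
  have herr := error_le n s hn hc2
  have hl2 : 2 ≤ lgc n := two_le_lgc hn
  have hnl : n < 2 ^ lgc n := lt_two_pow_lgc n
  set l := lgc n with hl
  set j := sj s l with hjd
  have hw : 1 ≤ 2 ^ j := Nat.one_le_two_pow
  have hq1 : 512 * (2 ^ j * (l + 1) ^ 2) < sq l (2 ^ j) := by
    have := (sq_spec l j).2.2
    omega
  have hl1 : 2 ^ j * 1 ≤ 2 ^ j * (l + 1) ^ 2 :=
    Nat.mul_le_mul_left _ (Nat.one_le_pow _ _ (by omega))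
  -- the restriction
  have hrr : r' ≤ sr n l (2 ^ j) := by
    unfold sr
    have hpos : 0 < 4 * l ^ 2 * sB l (2 ^ j) := by
      have h1 : 0 < sB l (2 ^ j) := by
        unfold sB sN
        have := (sq_spec l j).1.pos
        positivity
      positivity
    rw [Nat.le_div_iff_mul_le hpos]
    exact hr.trans hUn
  have hr4 : r' * (4 * sB l (2 ^ j)) ≤ U.card := by
    refine le_trans (Nat.mul_le_mul_left _ ?_) hr
    unfold sD
    have h1 : 1 ≤ l ^ 2 := Nat.one_le_pow _ _ (by omega)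
    calc 4 * sB l (2 ^ j) = 4 * 1 * sB l (2 ^ j) := by ring
      _ ≤ 4 * l ^ 2 * sB l (2 ^ j) :=
        Nat.mul_le_mul_right _ (Nat.mul_le_mul_left _ h1)
  obtain ⟨φ, hφ, hφf⟩ := exists_restriction d n j hj hc1 hc2 hl2 hnl.le U r' hrr hr4
  -- the block
  obtain ⟨M, hM⟩ : ∃ M, M + 1 = 2 * (2 ^ j * (l + 1) ^ 2) :=
    ⟨2 * (2 ^ j * (l + 1) ^ 2) - 1, by omega⟩
  have hNw : 2 * 2 ^ j ≤ sN l (2 ^ j) := by
    unfold sN
    calc 2 * 2 ^ j ≤ 4 * 2 ^ j := by omega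
      _ = 4 * 2 ^ j * 1 := by ring
      _ ≤ 4 * 2 ^ j * l := Nat.mul_le_mul_left _ (by omega)
  have hNq : sN l (2 ^ j) ≤ sq l (2 ^ j) := by
    have h1 : 4 * 2 ^ j * l ≤ 512 * (2 ^ j * (l + 1) ^ 2) := by
      calc 4 * 2 ^ j * l ≤ 512 * 2 ^ j * (l + 1) ^ 2 := by
            apply Nat.mul_le_mul
            · omega
            · nlinarith
        _ = 512 * (2 ^ j * (l + 1) ^ 2) := by ring
    exact h1.trans hq1.le
  have hMq : 256 * (M + 1) ≤ sq l (2 ^ j) := by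
    rw [hM]
    omega
  have hL : 2 * 2 ^ j < 2 ^ (l + 1) := by
    have h1 : 2 ^ j < 2 ^ l := Nat.pow_lt_pow_right (by norm_num) hj
    rw [pow_succ]
    omega
  have hk : (sN l (2 ^ j) * sq l (2 ^ j) + 1) ^ (2 * 2 ^ j) * 4 ^ (2 ^ j)
      ≤ 4 ^ (2 ^ j * (l + 1)) := by
    have h1 : sN l (2 ^ j) * sq l (2 ^ j) + 1 ≤ 2 ^ l := by
      have h2 : sN l (2 ^ j) * sq l (2 ^ j) ≤ n := hB
      omega
    calc (sN l (2 ^ j) * sq l (2 ^ j) + 1) ^ (2 * 2 ^ j) * 4 ^ (2 ^ j)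
        ≤ (2 ^ l) ^ (2 * 2 ^ j) * 4 ^ (2 ^ j) :=
          Nat.mul_le_mul_right _ (Nat.pow_le_pow_left h1 _)
      _ = 4 ^ (2 ^ j * l) * 4 ^ (2 ^ j) := by
          congr 1
          rw [← pow_mul, show l * (2 * 2 ^ j) = 2 * (2 ^ j * l) from by ring, pow_mul]
          norm_num
      _ = 4 ^ (2 ^ j * (l + 1)) := by
          rw [← pow_add, mul_add, mul_one]
  have hLk : 2 * ((l + 1) * (2 ^ j * (l + 1))) ≤ M + 1 := by
    rw [hM]
    apply le_of_eq
    ring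
  obtain ⟨D₀, D₁, h0, h0s, h0z, h1, h1s, h1z, hD⟩ :=
    poly_blockR (sN l (2 ^ j)) (2 ^ j) M (l + 1) (2 ^ j * (l + 1)) (sq l (2 ^ j)) (2 ^ s + n)
      hw hNw hNq hMq hL hk hLk
  obtain ⟨ρ, μ, m0, m1, m2, m3, m4⟩ := glueR hr1 (polyFn (sq l (2 ^ j)) (2 ^ j) (sN l (2 ^ j)))
    (polyFn_mono _ _ _) (fun x => langS d (List.ofFn x)) φ hφ hφf D₀ D₁ h0 h0s h0z h1 h1s h1z
    (2 ^ s + n) _ hD
  have hn0 : (0 : ℝ) < n := by exact_mod_cast hn
  have he : (((2 ^ s + n : ℕ) : ℝ) * (2 * (1 / 4) ^ (2 ^ j))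
      + (sq l (2 ^ j) : ℝ) ^ (2 * 2 ^ j) * (1 / 2) ^ sN l (2 ^ j)) ≤ 1 / n := by
    rw [le_div_iff₀ hn0]
    exact herr
  refine ⟨ρ, μ, m0, m1, m2, fun T b C out ψ g hs hC => (m3 T b C out ψ g hs hC).trans ?_,
    fun S ts T b A hs hA => (m4 S ts T b A hs hA).trans ?_⟩
  · linarith
  · linarith

open Classical in
/-- **Few changes on a set of variables, real gates, one language for all sizes.** -/
theorem mainS : ∃ (C₀ : ℕ) (L : List Bool → Bool), InNP L ∧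
    (∃ c : ℕ, DecidableInTime L (fun n => c * 2 ^ n)) ∧
    (∀ n : ℕ, Monotone fun x : Fin n → Bool => L (List.ofFn x)) ∧
    ∀ (n s : ℕ) (U : Finset (Fin n)), U.Nonempty →
      ∃ (ρ : Fin n → Bool) (μ : (Fin n → Bool) → ℝ), (∀ x, 0 ≤ μ x) ∧ ∑ x, μ x = 1 ∧
        (∀ x, μ x ≠ 0 → ∀ v, v ∉ U → x v = ρ v) ∧
        (∀ (T b : ℕ) (C : RCircuit (Fin n)) (out : Fin T → Wire (Fin n))
          (ψ : Fin T → ℝ →o Bool) (h : (Fin T → Bool) → Bool),
          C.size ≤ 2 ^ s → ChangesOn U (fun x => C.notVals x) b →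
          ∑ x with h (fun i => ψ i (C.val x (out i))) = L (List.ofFn x), μ x
            ≤ 1 / 2 + (T + 1) * b * (C₀ * (s + (Nat.log 2 n + 1)) ^ 2 * (Nat.log 2 n + 1) ^ 5)
              / U.card) ∧
        ∀ (S : ℕ) (ts : List ℕ) (T b : ℕ) (A : (Fin n → Bool) → Bool),
          (ts.sum + T) * (S + 1) ≤ 2 ^ s → Tries (realClass S) U ts T b A →
          ∑ x with A x = L (List.ofFn x), μ x
            ≤ 1 / 2 + (T + 1) * b * (C₀ * (s + (Nat.log 2 n + 1)) ^ 2 * (Nat.log 2 n + 1) ^ 5)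
              / U.card := by
  obtain ⟨d, hd, c, hc⟩ := langS_time
  refine ⟨2 * d * 2 ^ 26, langS d, langS_inNP d, ⟨c, hc⟩, langS_mono d, fun n s U hU => ?_⟩
  have hb1 : ∀ {b : ℕ} {W : Type} {w : (Fin n → Bool) → W}, ChangesOn U w b → 1 ≤ b := by
    intro b W w h
    have h1 := h (fun _ _ => false) (fun _ _ _ => le_rfl) (fun _ _ _ => rfl) 0
    omega
  have hUn : U.card ≤ n := (Finset.card_le_univ U).trans (by simp)
  have hUp : 1 ≤ U.card := hU.card_pos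
  have hn : 1 ≤ n := hUp.trans hUn
  have hu : (0 : ℝ) < U.card := by exact_mod_cast hUp
  obtain ⟨D, hD⟩ : ∃ D, D = sD (lgc n) (sj s (lgc n)) := ⟨_, rfl⟩
  have hDb := sD_bound n s hn
  rw [← hD] at hDb
  obtain ⟨X, hX⟩ : ∃ X : ℝ, X = ((2 * d * 2 ^ 26 : ℕ) : ℝ) * (s + (Nat.log 2 n + 1)) ^ 2
    * (Nat.log 2 n + 1) ^ 5 := ⟨_, rfl⟩
  have hXD : (2 : ℝ) * (d * D) ≤ X := by
    have h1 : 2 * (d * D) ≤ 2 * (d * (2 ^ 26 * ((s + (Nat.log 2 n + 1)) ^ 2
        * (Nat.log 2 n + 1) ^ 5))) := Nat.mul_le_mul_left _ (Nat.mul_le_mul_left _ hDb)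
    have h2 : ((2 * (d * D) : ℕ) : ℝ) ≤ ((2 * (d * (2 ^ 26 * ((s + (Nat.log 2 n + 1)) ^ 2
        * (Nat.log 2 n + 1) ^ 5))) : ℕ) : ℝ) := by exact_mod_cast h1
    rw [hX]
    refine le_trans (le_of_eq ?_) (h2.trans (le_of_eq ?_))
    · push_cast
      ring
    · push_cast
      ring
  rw [← hX]
  have hd1 : (1 : ℝ) ≤ d := by exact_mod_cast hd
  have hX0 : 0 ≤ X := by
    rw [hX]
    positivity
  rcases lt_or_ge U.card (d * D) with hUD | hUD
  · -- nothing to do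
    obtain ⟨ρ, μ, hμ0, hμ1, hρ⟩ := exists_prob' n
    have h1 : (1 : ℝ) ≤ X / U.card := by
      rw [le_div_iff₀ hu, one_mul]
      have h2 : (U.card : ℝ) ≤ d * D := by exact_mod_cast hUD.le
      have h3 : (0 : ℝ) ≤ d * D := by positivity
      linarith
    have key : ∀ T b : ℕ, 1 ≤ b → (1 : ℝ) ≤ 1 / 2 + (T + 1) * b * X / U.card := by
      intro T b hb
      have h2 : (1 : ℝ) ≤ ((T : ℝ) + 1) * b := by
        have h3 : (0 : ℝ) ≤ T := Nat.cast_nonneg T
        have h4 : (1 : ℝ) ≤ b := by exact_mod_cast hb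
        nlinarith
      have h3 : (1 : ℝ) ≤ ((T : ℝ) + 1) * b * (X / U.card) :=
        one_le_mul_of_one_le_of_one_le h2 h1
      rw [mul_div_assoc]
      linarith
    refine ⟨ρ, μ, hμ0, hμ1, fun x hx v _ => congrFun (hρ x hx) v,
      fun T b C out ψ g _ hC => ?_, fun S ts T b A _ hA => ?_⟩
    · exact (LocE.sum_filter_le_one μ hμ0 hμ1 _).trans (key T b (hb1 hC))
    · obtain ⟨Q, P, h, -, -, -, hch, -⟩ := hA
      exact (LocE.sum_filter_le_one μ hμ0 hμ1 _).trans (key T b (hb1 hch))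
  · have hDpos : 0 < D := by
      rw [hD]
      unfold sD sB sN
      have h1 := (sq_spec (lgc n) (sj s (lgc n))).1.pos
      have h2 := two_le_lgc hn
      positivity
    have hDU : D ≤ U.card := (Nat.le_mul_of_pos_left _ hd).trans hUD
    obtain ⟨r', hr'⟩ : ∃ r', r' = U.card / D := ⟨_, rfl⟩
    have hr1 : 1 ≤ r' := by
      rw [hr']
      exact (Nat.one_le_div_iff hDpos).mpr hDU
    have hrU : r' * D ≤ U.card := by
      rw [hr']
      exact Nat.div_mul_le_self _ _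
    have hrn : r' ≤ n := by
      rw [hr']
      exact (Nat.div_le_self _ _).trans hUn
    have hUr : U.card ≤ r' * (2 * D) := by
      have h1 : U.card < D * (U.card / D + 1) := Nat.lt_mul_div_succ _ hDpos
      rw [← hr'] at h1
      have h2 : D * (r' + 1) ≤ D * (2 * r') := Nat.mul_le_mul_left _ (by omega)
      calc U.card ≤ D * (2 * r') := (h1.trans_le h2).le
        _ = r' * (2 * D) := by ring
    have hr0 : (0 : ℝ) < r' := by exact_mod_cast hr1
    have hn0 : (0 : ℝ) < n := by exact_mod_cast hn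
    have hinv : (1 : ℝ) / r' ≤ X / U.card := by
      rw [div_le_div_iff₀ hr0 hu]
      have h1 : (U.card : ℝ) ≤ r' * (2 * D) := by exact_mod_cast hUr
      have h2 : (r' : ℝ) * (2 * D) ≤ r' * X := by
        apply mul_le_mul_of_nonneg_left _ hr0.le
        have h3 : (0 : ℝ) ≤ D := Nat.cast_nonneg D
        nlinarith
      linarith
    obtain ⟨ρ, μ, hμ0, hμ1, hρ, hμ, hμQ⟩ := one_lengthS d n s r' hn hd U (hD ▸ hUD) hr1
      (hD ▸ hrU)
    have hnr : (1 : ℝ) / n ≤ 1 / r' := by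
      apply one_div_le_one_div_of_le hr0
      exact_mod_cast hrn
    have key : ∀ T b : ℕ, 1 ≤ b → 1 / 2 + (1 / (n : ℝ)) / 2 + (T + 1) * b / (2 * r')
        ≤ 1 / 2 + (T + 1) * b * X / U.card := by
      intro T b hb
      have hT0 : (0 : ℝ) ≤ T := Nat.cast_nonneg T
      have hb0 : (1 : ℝ) ≤ b := by exact_mod_cast hb
      have hP : (1 : ℝ) ≤ ((T : ℝ) + 1) * b := by nlinarith
      have hfin : ((T : ℝ) + 1) * b * (1 / r') ≤ (T + 1) * b * X / U.card := by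
        rw [mul_div_assoc]
        exact mul_le_mul_of_nonneg_left hinv (by positivity)
      have h1 : ((T : ℝ) + 1) * b / (2 * r') = ((T : ℝ) + 1) * b * (1 / r') / 2 := by
        field_simp
      have h2 : (1 : ℝ) / r' ≤ ((T : ℝ) + 1) * b * (1 / r') :=
        le_mul_of_one_le_left (by positivity) hP
      rw [h1]
      linarith
    refine ⟨ρ, μ, hμ0, hμ1, hρ, fun T b C out ψ g hsz hC => ?_, fun S ts T b A hsz hA => ?_⟩
    · rcases le_or_gt T n with hTn | hTn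
      · exact (hμ T b C out ψ g (by omega) hC).trans (key T b (hb1 hC))
      · refine (LocE.sum_filter_le_one μ hμ0 hμ1 _).trans ?_
        have hT0 : (0 : ℝ) ≤ T := Nat.cast_nonneg T
        have hb0 : (1 : ℝ) ≤ b := by exact_mod_cast hb1 hC
        have h1 : (1 : ℝ) ≤ ((T : ℝ) + 1) * b * (1 / r') := by
          rw [mul_one_div, le_div_iff₀ hr0, one_mul]
          have h2 : (r' : ℝ) ≤ T := by exact_mod_cast hrn.trans hTn.le
          nlinarith
        have hfin : ((T : ℝ) + 1) * b * (1 / r') ≤ (T + 1) * b * X / U.card := by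
          rw [mul_div_assoc]
          exact mul_le_mul_of_nonneg_left hinv (by positivity)
        linarith
    · have hb : 1 ≤ b := by
        obtain ⟨Q, P, h, -, -, -, hch, -⟩ := hA
        exact hb1 hch
      exact (hμQ S ts T b A (hsz.trans (Nat.le_add_right _ _)) hA).trans (key T b hb)

end Pool.Agent.LocS
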