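import Pool.Agent.LocS.Addr

set_option autoImplicit false

/-!
# The numbers
-/

namespace Pool.Agent.LocS

open Finset Pool.Agent.NegLim Pool.Agent.NegLim.Lang Pool.Agent.NegLim.NPL Pool.Agent.NTR
  Pool.Agent.LocE

lemma lt_two_pow_lgc (n : ℕ) : n < 2 ^ lgc n := by
  rw [lgc_eq]
  have := Nat.lt_pow_succ_log_self (b := 2) (by norm_num) (n + 1)
  have h3 : Nat.succ (Nat.log 2 (n + 1)) = Nat.log 2 (n + 1) + 1 := rfl
  rw [← h3]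
  omega

lemma two_le_lgc {n : ℕ} (hn : 1 ≤ n) : 2 ≤ lgc n := by
  rw [lgc_eq]
  have : 1 ≤ Nat.log 2 (n + 1) := Nat.le_log_of_pow_le (by norm_num) (by omega)
  omega

lemma lgc_le {n : ℕ} (hn : 1 ≤ n) : lgc n ≤ Nat.log 2 n + 2 := by
  rw [lgc_eq]
  have h1 : Nat.log 2 (n + 1) ≤ Nat.log 2 (n * 2) := Nat.log_mono_right (by omega)
  rw [Nat.log_mul_base (by norm_num) (by omega)] at h1
  omega

/-- The scale for circuits of size `2 ^ s`. -/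
def sj (s l : ℕ) : ℕ := Nat.clog 2 (s + l + 1)

lemma sj_ge (s l : ℕ) : s + l + 1 ≤ 2 ^ sj s l := Nat.le_pow_clog (by norm_num) _

lemma sj_lt (s l : ℕ) (hl : 1 ≤ l) : 2 ^ sj s l < 2 * (s + l + 1) := by
  have h1 : 2 ^ (sj s l).pred < s + l + 1 :=
    Nat.pow_pred_clog_lt_self (by norm_num) (by omega)
  have h2 : 1 ≤ sj s l := Nat.clog_pos (by norm_num) (by omega)
  obtain ⟨t, ht⟩ : ∃ t, sj s l = t + 1 := ⟨sj s l - 1, by omega⟩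
  rw [ht, Nat.pred_succ] at h1
  rw [ht, pow_succ]
  omega

/-- The variables used by a block of scale `j`. -/
noncomputable def sD (l j : ℕ) : ℕ := 4 * l ^ 2 * sB l (2 ^ j)

lemma sD_le (l j : ℕ) : sD l j ≤ 2 ^ 14 * (2 ^ j) ^ 2 * l ^ 3 * (l + 1) ^ 2 := by
  unfold sD sB sN
  have h1 := (sq_spec l j).2.1
  calc 4 * l ^ 2 * (4 * 2 ^ j * l * sq l (2 ^ j))
      ≤ 4 * l ^ 2 * (4 * 2 ^ j * l * (1024 * (2 ^ j * (l + 1) ^ 2))) :=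
        Nat.mul_le_mul_left _ (Nat.mul_le_mul_left _ h1)
    _ = 2 ^ 14 * (2 ^ j) ^ 2 * l ^ 3 * (l + 1) ^ 2 := by ring

lemma sD_bound (n s : ℕ) (hn : 1 ≤ n) : sD (lgc n) (sj s (lgc n))
    ≤ 2 ^ 26 * ((s + (Nat.log 2 n + 1)) ^ 2 * (Nat.log 2 n + 1) ^ 5) := by
  obtain ⟨l, hl⟩ : ∃ l, l = lgc n := ⟨_, rfl⟩
  obtain ⟨t, ht⟩ : ∃ t, t = Nat.log 2 n + 1 := ⟨_, rfl⟩
  have hlt : l ≤ t + 1 := by
    have := lgc_le hn
    omega
  have ht1 : 1 ≤ t := by omega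
  have hl2 : 2 ≤ l := hl ▸ two_le_lgc hn
  rw [← hl, ← ht]
  refine (sD_le l _).trans ?_
  have h1 : 2 ^ sj s l ≤ 6 * (s + t) := by
    have := sj_lt s l (by omega)
    omega
  have h2 : l ≤ 2 * t := by omega
  have h3 : l + 1 ≤ 3 * t := by omega
  calc 2 ^ 14 * (2 ^ sj s l) ^ 2 * l ^ 3 * (l + 1) ^ 2
      ≤ 2 ^ 14 * (6 * (s + t)) ^ 2 * (2 * t) ^ 3 * (3 * t) ^ 2 := by
        gcongr
    _ = 42467328 * ((s + t) ^ 2 * t ^ 5) := by ring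
    _ ≤ 2 ^ 26 * ((s + t) ^ 2 * t ^ 5) := Nat.mul_le_mul_right _ (by norm_num)

/-- The conditions for one scale. -/
lemma numbers (n d s : ℕ) (hn : 1 ≤ n) (hd : 1 ≤ d)
    (hU : d * sD (lgc n) (sj s (lgc n)) ≤ n) :
    sj s (lgc n) < lgc n ∧ (2 * 2 ^ sj s (lgc n) + 1) * lgc n ≤ n / d ∧
    sq (lgc n) (2 ^ sj s (lgc n)) ≤ n ∧ sB (lgc n) (2 ^ sj s (lgc n)) ≤ n := by
  obtain ⟨l, hl⟩ : ∃ l, l = lgc n := ⟨_, rfl⟩
  rw [← hl] at hU ⊢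
  have hl2 : 2 ≤ l := hl ▸ two_le_lgc hn
  have hnl : n < 2 ^ l := hl ▸ lt_two_pow_lgc n
  obtain ⟨j, hj⟩ : ∃ j, j = sj s l := ⟨_, rfl⟩
  rw [← hj] at hU ⊢
  have hw : 1 ≤ 2 ^ j := Nat.one_le_two_pow
  obtain ⟨w, hwd⟩ : ∃ w, w = 2 ^ j := ⟨_, rfl⟩
  have hq0 : 1 ≤ sq l (2 ^ j) := (sq_spec l j).1.pos
  have hq1 : 512 * (2 ^ j * (l + 1) ^ 2) < sq l (2 ^ j) := by
    have := (sq_spec l j).2.2
    omega
  have hDn : sD l j ≤ n := (Nat.le_mul_of_pos_left _ hd).trans hU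
  have hDB : sB l (2 ^ j) ≤ sD l j := by
    unfold sD
    exact Nat.le_mul_of_pos_left _ (by positivity)
  have hBq : sq l (2 ^ j) ≤ sB l (2 ^ j) := by
    unfold sB
    refine Nat.le_mul_of_pos_left _ ?_
    unfold sN
    positivity
  have hqw : 2 ^ j ≤ sq l (2 ^ j) := by
    have h1 : 2 ^ j * 1 ≤ 2 ^ j * (l + 1) ^ 2 :=
      Nat.mul_le_mul_left _ (Nat.one_le_pow _ _ (by omega))
    omega
  have hDl : (2 * 2 ^ j + 1) * l ≤ sD l j := by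
    have h1 : 3 * 2 ^ j * l ≤ sB l (2 ^ j) := by
      unfold sB sN
      calc 3 * 2 ^ j * l ≤ 4 * 2 ^ j * l := by
            have := Nat.mul_le_mul_right l (Nat.mul_le_mul_right (2 ^ j) (show 3 ≤ 4 by norm_num))
            exact this
        _ = 4 * 2 ^ j * l * 1 := by ring
        _ ≤ 4 * 2 ^ j * l * sq l (2 ^ j) := Nat.mul_le_mul_left _ hq0
    have h2 : (2 * 2 ^ j + 1) * l ≤ 3 * 2 ^ j * l := Nat.mul_le_mul_right _ (by omega)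
    exact h2.trans (h1.trans hDB)
  refine ⟨?_, ?_, (hBq.trans hDB).trans hDn, hDB.trans hDn⟩
  · have h1 : 2 ^ j < 2 ^ l := lt_of_le_of_lt (hqw.trans ((hBq.trans hDB).trans hDn)) hnl
    exact (Nat.pow_lt_pow_iff_right (by norm_num)).mp h1
  · rw [Nat.le_div_iff_mul_le hd, mul_comm]
    exact (Nat.mul_le_mul_left _ hDl).trans hU

/-- The error. -/
lemma error_le (n s : ℕ) (hn : 1 ≤ n) (hq : sq (lgc n) (2 ^ sj s (lgc n)) ≤ n) :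
    (((2 ^ s + n : ℕ) : ℝ) * (2 * (1 / 4) ^ (2 ^ sj s (lgc n)))
      + (sq (lgc n) (2 ^ sj s (lgc n)) : ℝ) ^ (2 * 2 ^ sj s (lgc n))
        * (1 / 2) ^ sN (lgc n) (2 ^ sj s (lgc n))) * n ≤ 1 := by
  obtain ⟨l, hl⟩ : ∃ l, l = lgc n := ⟨_, rfl⟩
  rw [← hl] at hq ⊢
  have hl2 : 2 ≤ l := hl ▸ two_le_lgc hn
  have hnl : n < 2 ^ l := hl ▸ lt_two_pow_lgc n
  have hge := sj_ge s l
  obtain ⟨w, hw⟩ : ∃ w, w = 2 ^ sj s l := ⟨_, rfl⟩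
  rw [← hw] at hq hge ⊢
  obtain ⟨q, hqd⟩ : ∃ q, q = sq l w := ⟨_, rfl⟩
  rw [← hqd] at hq ⊢
  have hn' : (n : ℝ) ≤ 2 ^ l := by exact_mod_cast hnl.le
  have hn0 : (0 : ℝ) ≤ n := Nat.cast_nonneg n
  have h4 : (1 / 4 : ℝ) ^ w = 1 / 2 ^ (2 * w) := by
    rw [one_div, one_div, inv_pow, pow_mul]; norm_num
  have hs0 : ((2 ^ s + n : ℕ) : ℝ) ≤ 2 ^ (s + l) := by
    have h1 : 2 ^ s + n ≤ 2 ^ (s + l) := by
      have h2 : 2 ^ (s + l) = 2 ^ s * 2 ^ l := pow_add _ _ _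
      have h3 : 1 ≤ 2 ^ s := Nat.one_le_two_pow
      have h5 : 2 ≤ 2 ^ l := by
        calc 2 = 2 ^ 1 := (pow_one 2).symm
          _ ≤ 2 ^ l := Nat.pow_le_pow_right (by norm_num) (by omega)
      rw [h2]
      nlinarith
    exact_mod_cast h1
  have e1 : ((2 ^ s + n : ℕ) : ℝ) * (2 * (1 / 4) ^ w) * n ≤ 1 / 2 := by
    rw [h4]
    have h5 : ((2 ^ s + n : ℕ) : ℝ) * (2 * (1 / 2 ^ (2 * w))) * n
        ≤ 2 ^ (s + l) * (2 * (1 / 2 ^ (2 * w))) * 2 ^ l := by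
      apply mul_le_mul _ hn' hn0 (by positivity)
      exact mul_le_mul_of_nonneg_right hs0 (by positivity)
    refine h5.trans ?_
    have h6 : (2 : ℝ) ^ (s + l) * (2 * (1 / 2 ^ (2 * w))) * 2 ^ l
        = 2 ^ (s + 2 * l + 1) / 2 ^ (2 * w) := by
      have e0 : (2 : ℝ) ^ (s + 2 * l + 1) = 2 ^ (s + l) * 2 * 2 ^ l := by
        rw [show s + 2 * l + 1 = (s + l) + 1 + l from by ring, pow_add (2 : ℝ) (s + l + 1) l,
          pow_succ]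
      rw [e0]
      ring
    rw [h6, div_le_div_iff₀ (by positivity) (by norm_num)]
    have h7 : (2 : ℝ) ^ (s + 2 * l + 1) * 2 = 2 ^ (s + 2 * l + 2) :=
      (pow_succ (2 : ℝ) (s + 2 * l + 1)).symm
    rw [h7, one_mul]
    exact pow_le_pow_right₀ (by norm_num) (by omega)
  have e2 : (q : ℝ) ^ (2 * w) * (1 / 2) ^ sN l w * n ≤ 1 / 2 := by
    have h5 : (q : ℝ) ^ (2 * w) ≤ 2 ^ (l * (2 * w)) := by
      rw [pow_mul (2 : ℝ) l (2 * w)]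
      exact pow_le_pow_left₀ (Nat.cast_nonneg _) ((by exact_mod_cast hq : (q : ℝ) ≤ n).trans hn') _
    have h6 : (1 / 2 : ℝ) ^ sN l w = 1 / 2 ^ (4 * w * l) := by
      unfold sN
      rw [one_div, one_div, inv_pow]
    rw [h6]
    have h7 : (q : ℝ) ^ (2 * w) * (1 / 2 ^ (4 * w * l)) * n
        ≤ 2 ^ (l * (2 * w)) * (1 / 2 ^ (4 * w * l)) * 2 ^ l := by
      apply mul_le_mul _ hn' hn0 (by positivity)
      exact mul_le_mul_of_nonneg_right h5 (by positivity)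
    refine h7.trans ?_
    have h8 : (2 : ℝ) ^ (l * (2 * w)) * (1 / 2 ^ (4 * w * l)) * 2 ^ l
        = 2 ^ (l * (2 * w) + l) / 2 ^ (4 * w * l) := by
      rw [pow_add]
      ring
    rw [h8, div_le_div_iff₀ (by positivity) (by norm_num), one_mul, ← pow_succ]
    apply pow_le_pow_right₀ (by norm_num)
    have h9 : 1 ≤ w := by omega
    have h10 : l * (2 * w) + l + 1 ≤ l * (2 * w) + 2 * l := by omega
    have h11 : l * (2 * w) + 2 * l ≤ 4 * w * l := by nlinarith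
    omega
  have h9 : (((2 ^ s + n : ℕ) : ℝ) * (2 * (1 / 4) ^ w) + (q : ℝ) ^ (2 * w) * (1 / 2) ^ sN l w) * n
      = ((2 ^ s + n : ℕ) : ℝ) * (2 * (1 / 4) ^ w) * n
        + (q : ℝ) ^ (2 * w) * (1 / 2) ^ sN l w * n := by ring
  rw [h9]
  linarith

end Pool.Agent.LocS
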